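import Mathlib

set_option autoImplicit false

/-! MP_697e97_al, Q1 (answered positively). The endomorphism monoid `End(R)` of the random graph
has finite commutative submonoid width: `cmw (End R) ≤ 3`.

Proof. Let `X` be the disjoint union of three pieces: a copy `a v` of `R`, the categorical square
`b v w` of `R`, and another copy `d v` of `R`. For `f` in `End(R)` the map
`a v ↦ b v (f v)`, `b v w ↦ d v`, `d v ↦ d v` is an endomorphism of `X`, and any two of these maps
commute. A functorial construction `K X` (freely adding common neighbours of finite sequences)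
turns `X` into a copy of the random graph and the maps into commuting endomorphisms; the projection
`b v w ↦ w` extends to a homomorphism `K X → R`. So `f = p ∘ C_f ∘ i` with `p`, `i` independent of
`f` and the `C_f` commuting. -/

namespace Pool.Agent.Results.MP_697e97_al.EndRandomGraph

universe u v

/-- `R` is a random graph: for disjoint finite vertex sets `U`, `W` some vertex outside `U ∪ W` is
adjacent to every vertex of `U` and to no vertex of `W`. (Together with countability of the vertex
set this characterises the random graph up to isomorphism.) -/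
def IsRandom {V : Type u} (R : SimpleGraph V) : Prop :=
  ∀ U W : Finset V, Disjoint U W →
    ∃ z, z ∉ U ∧ z ∉ W ∧ (∀ x ∈ U, R.Adj z x) ∧ ∀ x ∈ W, ¬ R.Adj z x

/-- The monoid `M` is a product `C 0 C 1 ... C (n-1)` of `n` commutative submonoids. -/
def IsProduct (M : Type u) [Monoid M] (n : ℕ) : Prop :=
  ∃ C : Fin n → Submonoid M,
    (∀ i, ∀ x ∈ C i, ∀ y ∈ C i, x * y = y * x) ∧
    ∀ m : M, ∃ c : Fin n → M, (∀ i, c i ∈ C i) ∧ (List.ofFn c).prod = m

/-- The commutative submonoid width of `M`, in `ℕ∞` (with value `⊤` if there is no such `n`). -/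
noncomputable def cmw (M : Type u) [Monoid M] : ℕ∞ := sInf {k : ℕ∞ | ∃ n : ℕ, k = n ∧ IsProduct M n}

/-! ### Back and forth -/

section BF

variable {A : Type u} {B : Type v} (G : SimpleGraph A) (H : SimpleGraph B)

/-- Finite partial isomorphisms. -/
def PIso : Type (max u v) :=
  {f : Finset (A × B) // ∀ p ∈ f, ∀ q ∈ f,
    (p.1 = q.1 ↔ p.2 = q.2) ∧ (G.Adj p.1 q.1 ↔ H.Adj p.2 q.2)}

instance : Preorder (PIso G H) := Preorder.lift (fun f => f.1)

instance : Inhabited (PIso G H) := ⟨⟨∅, by simp⟩⟩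

lemma ext_left (hH : IsRandom H) (f : PIso G H) (a : A) :
    ∃ g : PIso G H, f ≤ g ∧ ∃ b, (a, b) ∈ g.1 := by
  classical
  by_cases h : ∃ b, (a, b) ∈ f.1
  · exact ⟨f, le_refl _, h⟩
  have ha : ∀ p ∈ f.1, p.1 ≠ a := by
    rintro ⟨x, y⟩ hp rfl
    exact h ⟨y, hp⟩
  set U := (f.1.filter (fun p => G.Adj a p.1)).image Prod.snd with hU
  set W := (f.1.filter (fun p => ¬ G.Adj a p.1)).image Prod.snd with hW
  have hd : Disjoint U W := by
    rw [Finset.disjoint_left]
    intro x hx hx'
    rw [hU, Finset.mem_image] at hx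
    rw [hW, Finset.mem_image] at hx'
    obtain ⟨p, hp, hpx⟩ := hx
    obtain ⟨q, hq, hqx⟩ := hx'
    rw [Finset.mem_filter] at hp hq
    have := (f.2 p hp.1 q hq.1).1.2 (by rw [hpx, hqx])
    exact hq.2 (this ▸ hp.2)
  obtain ⟨z, hzU, hzW, hz1, hz2⟩ := hH U W hd
  have hzp : ∀ p ∈ f.1, z ≠ p.2 := by
    intro p hp hz
    by_cases hadj : G.Adj a p.1
    · exact hzU (hz ▸ Finset.mem_image_of_mem _ (Finset.mem_filter.2 ⟨hp, hadj⟩))
    · exact hzW (hz ▸ Finset.mem_image_of_mem _ (Finset.mem_filter.2 ⟨hp, hadj⟩))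
  have hzadj : ∀ p ∈ f.1, (G.Adj a p.1 ↔ H.Adj z p.2) := by
    intro p hp
    by_cases hadj : G.Adj a p.1
    · exact ⟨fun _ => hz1 _ (Finset.mem_image_of_mem _ (Finset.mem_filter.2 ⟨hp, hadj⟩)),
        fun _ => hadj⟩
    · exact ⟨fun h => absurd h hadj, fun h => absurd h
        (hz2 _ (Finset.mem_image_of_mem _ (Finset.mem_filter.2 ⟨hp, hadj⟩)))⟩
  refine ⟨⟨insert (a, z) f.1, ?_⟩, Finset.subset_insert _ _, z, Finset.mem_insert_self _ _⟩
  intro p hp q hq
  rw [Finset.mem_insert] at hp hq
  rcases hp with rfl | hp <;> rcases hq with rfl | hq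
  · simp
  · refine ⟨⟨fun h => absurd h.symm (ha q hq), fun h => absurd h (hzp q hq)⟩, hzadj q hq⟩
  · refine ⟨⟨fun h => absurd h (ha p hp), fun h => absurd h.symm (hzp p hp)⟩, ?_⟩
    rw [G.adj_comm, H.adj_comm]
    exact hzadj p hp
  · exact f.2 p hp q hq

/-- Inverse of a partial isomorphism. -/
def PIso.inv {G : SimpleGraph A} {H : SimpleGraph B} (f : PIso G H) : PIso H G :=
  ⟨f.1.map (Equiv.prodComm A B).toEmbedding, by
    intro p hp q hq
    rw [Finset.mem_map] at hp hq
    obtain ⟨p', hp', rfl⟩ := hp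
    obtain ⟨q', hq', rfl⟩ := hq
    have := f.2 p' hp' q' hq'
    exact ⟨this.1.symm, this.2.symm⟩⟩

lemma mem_inv {G : SimpleGraph A} {H : SimpleGraph B} (f : PIso G H) (a : A) (b : B) :
    (b, a) ∈ f.inv.1 ↔ (a, b) ∈ f.1 := by
  unfold PIso.inv
  rw [Finset.mem_map]
  constructor
  · rintro ⟨⟨x, y⟩, h, h'⟩
    simp only [Equiv.coe_toEmbedding, Equiv.prodComm_apply, Prod.swap_prod_mk,
      Prod.mk.injEq] at h'
    rw [← h'.1, ← h'.2]
    exact h
  · intro h
    exact ⟨(a, b), h, rfl⟩

lemma ext_right (hG : IsRandom G) (f : PIso G H) (b : B) :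
    ∃ g : PIso G H, f ≤ g ∧ ∃ a, (a, b) ∈ g.1 := by
  obtain ⟨g, hg, a, ha⟩ := ext_left H G hG f.inv b
  refine ⟨g.inv, ?_, a, (mem_inv g b a).2 ha⟩
  rintro ⟨x, y⟩ hxy
  have h1 : (y, x) ∈ f.inv.1 := (mem_inv f x y).2 hxy
  exact (mem_inv g y x).2 (hg h1)

theorem iso_of_random [Countable A] [Countable B] (hG : IsRandom G) (hH : IsRandom H) :
    Nonempty (G ≃g H) := by
  cases nonempty_encodable A
  cases nonempty_encodable B
  let cof : A ⊕ B → Order.Cofinal (PIso G H) := fun p => match p with
    | Sum.inl a => ⟨{f | ∃ b, (a, b) ∈ f.1}, fun f => by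
        obtain ⟨g, h1, h2⟩ := ext_left G H hH f a
        exact ⟨g, h2, h1⟩⟩
    | Sum.inr b => ⟨{f | ∃ a, (a, b) ∈ f.1}, fun f => by
        obtain ⟨g, h1, h2⟩ := ext_right G H hG f b
        exact ⟨g, h2, h1⟩⟩
  let I : Order.Ideal (PIso G H) := Order.idealOfCofinals default cof
  have hl : ∀ a, ∃ b, ∃ f ∈ I, (a, b) ∈ f.1 := by
    intro a
    obtain ⟨f, ⟨b, hb⟩, hf⟩ := Order.cofinal_meets_idealOfCofinals default cof (Sum.inl a)
    exact ⟨b, f, hf, hb⟩
  have hr : ∀ b, ∃ a, ∃ f ∈ I, (a, b) ∈ f.1 := by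
    intro b
    obtain ⟨f, ⟨a, ha⟩, hf⟩ := Order.cofinal_meets_idealOfCofinals default cof (Sum.inr b)
    exact ⟨a, f, hf, ha⟩
  have key : ∀ a b a' b', (∃ f ∈ I, (a, b) ∈ f.1) → (∃ f ∈ I, (a', b') ∈ f.1) →
      (a = a' ↔ b = b') ∧ (G.Adj a a' ↔ H.Adj b b') := by
    rintro a b a' b' ⟨f, hf, hab⟩ ⟨g, hg, hab'⟩
    obtain ⟨m, -, hfm, hgm⟩ := I.directed f hf g hg
    exact m.2 (a, b) (hfm hab) (a', b') (hgm hab')
  choose F hF using hl
  choose F' hF' using hr
  refine ⟨⟨⟨F, F', fun a => ?_, fun b => ?_⟩, ?_⟩⟩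
  · exact ((key _ _ _ _ (hF' (F a)) (hF a)).1).2 rfl
  · exact ((key _ _ _ _ (hF (F' b)) (hF' b)).1).1 rfl
  · intro a a'
    exact ((key _ _ _ _ (hF a) (hF a')).2).symm

end BF

/-! ### The functor `K` -/

/-- Elements of `X` and formal new vertices with a finite sequence of neighbours. -/
inductive K (X : Type u) : Type u
  | base : X → K X
  | ext : ℕ → (k : ℕ) → (Fin k → K X) → K X

namespace K

variable {X : Type u} {Y : Type v}

/-- `x` is one of the prescribed neighbours of the new vertex `y`. -/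
def Child (x y : K X) : Prop := ∃ (n k : ℕ) (c : Fin k → K X) (i : Fin k), y = ext n k c ∧ c i = x

/-- The rank of an element. -/
def rank : K X → ℕ
  | base _ => 0
  | ext _ _ c => (Finset.univ.sup fun i => rank (c i)) + 1

lemma rank_lt {x y : K X} (h : Child x y) : rank x < rank y := by
  obtain ⟨n, k, c, i, rfl, rfl⟩ := h
  rw [rank]
  exact Nat.lt_succ_of_le (Finset.le_sup (f := fun i => rank (c i)) (Finset.mem_univ i))

/-- The graph on `K X`. -/
def graph (H : SimpleGraph X) : SimpleGraph (K X) where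
  Adj x y := (∃ a b, x = base a ∧ y = base b ∧ H.Adj a b) ∨ Child x y ∨ Child y x
  symm := ⟨by
    rintro x y (⟨a, b, rfl, rfl, h⟩ | h | h)
    · exact Or.inl ⟨b, a, rfl, rfl, h.symm⟩
    · exact Or.inr (Or.inr h)
    · exact Or.inr (Or.inl h)⟩
  loopless := ⟨by
    rintro x (⟨a, b, rfl, h', h⟩ | h | h)
    · injection h' with h'
      subst h'
      exact H.loopless.irrefl _ h
    · exact lt_irrefl _ (rank_lt h)
    · exact lt_irrefl _ (rank_lt h)⟩

/-- Functoriality. -/
def map (f : X → Y) : K X → K Y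
  | base x => base (f x)
  | ext n k c => ext n k (fun i => map f (c i))

lemma map_child (f : X → Y) {x y : K X} (h : Child x y) : Child (map f x) (map f y) := by
  obtain ⟨n, k, c, i, rfl, rfl⟩ := h
  exact ⟨n, k, fun i => map f (c i), i, rfl, rfl⟩

lemma map_adj {H : SimpleGraph X} {H' : SimpleGraph Y} (f : H →g H') {x y : K X}
    (h : (graph H).Adj x y) : (graph H').Adj (map f x) (map f y) := by
  rcases h with ⟨a, b, rfl, rfl, h⟩ | h | h
  · exact Or.inl ⟨f a, f b, rfl, rfl, f.map_adj h⟩
  · exact Or.inr (Or.inl (map_child f h))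
  · exact Or.inr (Or.inr (map_child f h))

lemma map_map {Z : Type*} (f : X → Y) (g : Y → Z) (x : K X) :
    map g (map f x) = map (fun a => g (f a)) x := by
  induction x with
  | base x => rfl
  | ext n k c ih => simp only [map, ih]

/-- The prescribed neighbours form a finite set. -/
lemma finite_child (y : K X) : {x | Child x y}.Finite := by
  cases y with
  | base a =>
    convert Set.finite_empty
    ext x
    simp only [Set.mem_ofPred_eq, Set.mem_empty_iff_false, iff_false]
    rintro ⟨n, k, c, i, h, -⟩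
    cases h
  | ext n k c =>
    refine (Set.finite_range c).subset ?_
    rintro x ⟨n', k', c', i, h, rfl⟩
    cases h
    exact ⟨i, rfl⟩

lemma isRandom (H : SimpleGraph X) : IsRandom (graph H) := by
  classical
  intro U W hUW
  set c : Fin U.card → K X := fun i => (U.equivFin.symm i).1 with hc
  have hcU : ∀ i, c i ∈ U := fun i => (U.equivFin.symm i).2
  have hUc : ∀ x ∈ U, ∃ i, c i = x := by
    intro x hx
    exact ⟨U.equivFin ⟨x, hx⟩, by simp [hc]⟩
  -- the finite set of forbidden vertices
  have hfin : ((U : Set (K X)) ∪ (W : Set (K X)) ∪ ⋃ w ∈ (W : Set (K X)), {x | Child x w}).Finite :=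
    (U.finite_toSet.union W.finite_toSet).union
      (W.finite_toSet.biUnion fun w _ => finite_child w)
  have hinj : Function.Injective (fun n : ℕ => (ext n U.card c : K X)) := by
    intro m n h
    simpa using h
  obtain ⟨z, ⟨n, rfl⟩, hz⟩ := (Set.infinite_range_of_injective hinj).exists_notMem_finite hfin
  simp only [Set.mem_union, not_or, Set.mem_iUnion, Finset.mem_coe, Set.mem_ofPred_eq,
    not_exists] at hz
  obtain ⟨⟨hzU, hzW⟩, hzC⟩ := hz
  refine ⟨_, hzU, hzW, ?_, ?_⟩
  · intro x hx
    obtain ⟨i, hi⟩ := hUc x hx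
    exact Or.inr (Or.inr ⟨n, _, c, i, rfl, hi⟩)
  · rintro x hx (⟨a, b, h, -⟩ | h | h)
    · cases h
    · exact hzC x hx h
    · obtain ⟨n', k', c', i, h', rfl⟩ := h
      cases h'
      exact Finset.disjoint_left.1 hUW (hcU i) hx

/-- Countability via `W`-types. -/
def toW : K X → WType (fun s : X ⊕ (ℕ × ℕ) => Sum.elim (fun _ => Fin 0) (fun p => Fin p.2) s)
  | base x => ⟨Sum.inl x, fun i => Fin.elim0 i⟩
  | ext n k c => ⟨Sum.inr (n, k), fun i => toW (c i)⟩

lemma toW_injective : Function.Injective (toW (X := X)) := by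
  intro x
  induction x with
  | base x =>
    intro y h
    cases y with
    | base y =>
      simp only [toW, WType.mk.injEq, Sum.inl.injEq] at h
      rw [h.1]
    | ext n k c =>
      rw [toW, toW] at h
      injection h with h1
      cases h1
  | ext n k c ih =>
    intro y h
    cases y with
    | base y =>
      rw [toW, toW] at h
      injection h with h1
      cases h1
    | ext n' k' c' =>
      simp only [toW, WType.mk.injEq, Sum.inr.injEq, Prod.mk.injEq] at h
      obtain ⟨⟨rfl, rfl⟩, h⟩ := h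
      have h' := eq_of_heq h
      congr 1
      funext i
      exact ih i (congrFun h' i)

instance [Countable X] : Countable (K X) := by
  cases nonempty_encodable X
  have : ∀ s : X ⊕ (ℕ × ℕ), Fintype (Sum.elim (fun _ => Fin 0) (fun p : ℕ × ℕ => Fin p.2) s) := by
    rintro (x | p)
    · exact inferInstanceAs (Fintype (Fin 0))
    · exact inferInstanceAs (Fintype (Fin p.2))
  have : ∀ s : X ⊕ (ℕ × ℕ), Encodable (Sum.elim (fun _ => Fin 0) (fun p : ℕ × ℕ => Fin p.2) s) := by
    rintro (x | p)
    · exact inferInstanceAs (Encodable (Fin 0))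
    · exact inferInstanceAs (Encodable (Fin p.2))
  exact toW_injective.countable

end K

/-! ### The three-piece graph -/

/-- The vertex set of the auxiliary graph. -/
inductive X (V : Type u) : Type u
  | a : V → X V
  | b : V → V → X V
  | d : V → X V

namespace X

variable {V : Type u} (R : SimpleGraph V)

instance [Countable V] : Countable (X V) := by
  have : Function.Injective (fun x : X V => match x with
    | a v => (Sum.inl v : V ⊕ ((V × V) ⊕ V))
    | b v w => Sum.inr (Sum.inl (v, w))
    | d v => Sum.inr (Sum.inr v)) := by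
    rintro (v | ⟨v, w⟩ | v) (v' | ⟨v', w'⟩ | v') h <;> simp_all
  exact this.countable

/-- `R ⊔ (R × R) ⊔ R`. -/
def graph : SimpleGraph (X V) where
  Adj x y := match x, y with
    | a v, a v' => R.Adj v v'
    | b v w, b v' w' => R.Adj v v' ∧ R.Adj w w'
    | d v, d v' => R.Adj v v'
    | _, _ => False
  symm := ⟨by
    rintro (v | ⟨v, w⟩ | v) (v' | ⟨v', w'⟩ | v') h
    all_goals first
      | exact h.elim
      | exact SimpleGraph.Adj.symm h
      | exact ⟨SimpleGraph.Adj.symm h.1, SimpleGraph.Adj.symm h.2⟩⟩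
  loopless := ⟨by
    rintro (v | ⟨v, w⟩ | v) h
    · exact R.loopless.irrefl _ h
    · exact R.loopless.irrefl _ h.1
    · exact R.loopless.irrefl _ h⟩

/-- The endomorphism of `X` attached to `f`. -/
def phi (f : V → V) : X V → X V
  | a v => b v (f v)
  | b v _ => d v
  | d v => d v

lemma phi_comm (f g : V → V) (x : X V) : phi f (phi g x) = phi g (phi f x) := by
  cases x <;> rfl

lemma phi_adj (f : R →g R) {x y : X V} (h : (graph R).Adj x y) :
    (graph R).Adj (phi f x) (phi f y) := by
  rcases x with v | ⟨v, w⟩ | v <;> rcases y with v' | ⟨v', w'⟩ | v'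
  all_goals first
    | exact h.elim
    | exact ⟨h, f.map_adj h⟩
    | exact h.1
    | exact h

/-- The second projection. -/
def snd : X V → V
  | a v => v
  | b _ w => w
  | d v => v

lemma snd_adj {x y : X V} (h : (graph R).Adj x y) : R.Adj (snd x) (snd y) := by
  rcases x with v | ⟨v, w⟩ | v <;> rcases y with v' | ⟨v', w'⟩ | v'
  all_goals first
    | exact h.elim
    | exact h.2
    | exact h

end X

section Main

variable {V : Type u} {R : SimpleGraph V}

lemma common (hR : IsRandom R) (k : ℕ) (c : Fin k → V) : ∃ z, ∀ i, R.Adj z (c i) := by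
  classical
  obtain ⟨z, -, -, hz, -⟩ := hR (Finset.univ.image c) ∅ (Finset.disjoint_empty_right _)
  exact ⟨z, fun i => hz _ (Finset.mem_image_of_mem _ (Finset.mem_univ i))⟩

/-- Extension of a map `X → R` to `K X → R`. -/
noncomputable def lift (hR : IsRandom R) {Y : Type v} (g : Y → V) : K Y → V
  | K.base x => g x
  | K.ext _ k c => (common hR k (fun i => lift hR g (c i))).choose

lemma lift_child (hR : IsRandom R) {Y : Type v} (g : Y → V) {x y : K Y} (h : K.Child x y) :
    R.Adj (lift hR g y) (lift hR g x) := by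
  obtain ⟨n, k, c, i, rfl, rfl⟩ := h
  rw [lift]
  exact (common hR k (fun i => lift hR g (c i))).choose_spec i

lemma lift_adj (hR : IsRandom R) {Y : Type v} {H : SimpleGraph Y} (g : Y → V)
    (hg : ∀ x y, H.Adj x y → R.Adj (g x) (g y)) {x y : K Y} (h : (K.graph H).Adj x y) :
    R.Adj (lift hR g x) (lift hR g y) := by
  rcases h with ⟨a, b, rfl, rfl, h⟩ | h | h
  · simpa only [lift] using hg _ _ h
  · exact (lift_child hR g h).symm
  · exact lift_child hR g h

theorem isProduct (hR : IsRandom R) [Countable V] : IsProduct (R →g R) 3 := by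
  obtain ⟨e⟩ : Nonempty (K.graph (X.graph R) ≃g R) :=
    iso_of_random _ _ (K.isRandom _) hR
  -- the three kinds of maps
  let i : R →g R := ⟨fun v => e (K.base (X.a v)), fun {v w} h =>
    e.map_adj_iff.2 (Or.inl ⟨X.a v, X.a w, rfl, rfl, h⟩)⟩
  let p : R →g R := ⟨fun v => lift hR X.snd (e.symm v), fun {v w} h =>
    lift_adj hR (H := X.graph R) X.snd (fun x y => X.snd_adj R) (e.symm.map_adj_iff.2 h)⟩
  let C : (R →g R) → (R →g R) := fun f => ⟨fun v => e (K.map (X.phi f) (e.symm v)), fun {v w} h =>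
    e.map_adj_iff.2 (K.map_adj (H := X.graph R) (H' := X.graph R)
      ⟨X.phi f, fun {_ _} h => X.phi_adj R f h⟩ (e.symm.map_adj_iff.2 h))⟩
  have hC : ∀ f g, C f * C g = C g * C f := by
    intro f g
    ext v
    change e (K.map (X.phi f) (e.symm (e (K.map (X.phi g) (e.symm v))))) =
      e (K.map (X.phi g) (e.symm (e (K.map (X.phi f) (e.symm v)))))
    rw [e.symm_apply_apply, e.symm_apply_apply, K.map_map, K.map_map]
    simp only [X.phi_comm f g]
  have hf : ∀ f, p * C f * i = f := by
    intro f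
    ext v
    change lift hR X.snd (e.symm (e (K.map (X.phi f) (e.symm (e (K.base (X.a v))))))) = f v
    rw [e.symm_apply_apply, e.symm_apply_apply]
    simp only [K.map, X.phi, lift, X.snd]
  refine ⟨![Submonoid.powers p, Submonoid.closure (Set.range C), Submonoid.powers i], ?_, ?_⟩
  · intro j
    fin_cases j
    · rintro x ⟨m, rfl⟩ y ⟨n, rfl⟩
      exact ((Commute.refl p).pow_pow m n).eq
    · intro x hx y hy
      have hcomm : ∀ x ∈ Set.range C, ∀ y ∈ Set.range C, x * y = y * x := by
        rintro _ ⟨f, rfl⟩ _ ⟨g, rfl⟩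
        exact hC f g
      exact congrArg Subtype.val
        ((Submonoid.isMulCommutative_closure _ hcomm).is_comm.comm ⟨x, hx⟩ ⟨y, hy⟩)
    · rintro x ⟨m, rfl⟩ y ⟨n, rfl⟩
      exact ((Commute.refl i).pow_pow m n).eq
  · intro f
    refine ⟨![p, C f, i], ?_, ?_⟩
    · intro j
      fin_cases j
      · exact Submonoid.mem_powers p
      · exact Submonoid.subset_closure ⟨f, rfl⟩
      · exact Submonoid.mem_powers i
    · simp [List.ofFn_succ, ← mul_assoc, hf]

end Main

/-- The random graph exists, and for every random graph `R` (countable, with the extension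
property) the monoid `End(R)` is a product of three commutative submonoids; so its commutative
submonoid width is at most `3`, in particular finite. -/
theorem result :
    (∃ R : SimpleGraph ℕ, IsRandom R) ∧
    ∀ (V : Type u) [Countable V] (R : SimpleGraph V), IsRandom R →
      IsProduct (R →g R) 3 ∧ cmw (R →g R) ≤ 3 := by
  refine ⟨?_, ?_⟩
  · have h := K.isRandom (⊥ : SimpleGraph Empty)
    have : Infinite (K Empty) := by
      refine Infinite.of_injective (fun n : ℕ => (K.ext n 0 Fin.elim0 : K Empty)) ?_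
      intro m n h
      simpa using h
    obtain ⟨e⟩ : Nonempty (K Empty ≃ ℕ) := by
      obtain ⟨d⟩ := nonempty_denumerable (K Empty)
      exact ⟨Denumerable.eqv _⟩
    refine ⟨(K.graph (⊥ : SimpleGraph Empty)).map e.toEmbedding, ?_⟩
    intro U W hUW
    classical
    obtain ⟨z, h1, h2, h3, h4⟩ := h (U.map e.symm.toEmbedding) (W.map e.symm.toEmbedding)
      ((Finset.disjoint_map _).2 hUW)
    refine ⟨e z, ?_, ?_, ?_, ?_⟩
    · intro hz
      exact h1 (Finset.mem_map.2 ⟨e z, hz, by simp⟩)
    · intro hz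
      exact h2 (Finset.mem_map.2 ⟨e z, hz, by simp⟩)
    · intro x hx
      have := h3 (e.symm x) (Finset.mem_map.2 ⟨x, hx, rfl⟩)
      rw [SimpleGraph.map_adj]
      exact ⟨z, e.symm x, this, rfl, by simp⟩
    · intro x hx hadj
      rw [SimpleGraph.map_adj] at hadj
      obtain ⟨u', v', hadj, hu, hv⟩ := hadj
      have hu' : u' = z := e.injective hu
      have hv' : v' = e.symm x := by rw [← hv]; simp
      subst hu' hv'
      exact h4 _ (Finset.mem_map.2 ⟨x, hx, rfl⟩) hadj
  · intro V _ R hR
    exact ⟨isProduct hR, sInf_le ⟨3, rfl, isProduct hR⟩⟩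

end Pool.Agent.Results.MP_697e97_al.EndRandomGraph
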